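import Pool.Agent.V1179.MH.GH14

set_option autoImplicit false

/-!
# Two integers, their sum, their product, and further linear forms in the middle of record prime gaps

Write `f(Z) = log Z (log₂ Z)² log₄ Z / (log₃ Z)²` (the size of the longest prime gaps below `Z` that are
known, from the starting library).

For every `r` and `ε > 0` there is `κ > 0` such that the following holds for all pairwise non-proportional
pairs `(α_j, β_j) ≠ (0, 0)`, `j < r`, of natural numbers and all large `T`.  Every rectangle
`[a, a + L) × [b, b + M)` with `a, b, L, M ≥ T ^ ε` contains a pair of integers `(x, y)` such that no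
prime lies within `κ f(T)` of `x y` or of any of the `r` numbers `α_j x + β_j y`.

With the forms `x, y, x + y` this is the pattern `{x, y, x + y, x y}` of Hindman's conjecture on sums and
products: long runs of composite numbers (of length `g = κ f(T)`) occur around all four numbers at the
same time, in every rectangle with sides `T ^ ε`.  Further forms such as `x + 2 y, …, x + k y, 2 x + y, …`
can be added.

Modulo small primes the four numbers cannot be made equal up to constants (`x ≡ e + c`, `y ≡ e + c'`,
`x + y ≡ e + c''` for all `e` is impossible), so that the usual reduction to one sieve fails.  The proof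
uses `Pool.Agent.V1179.MH.GH.critZ` (Rankin's choice of residue classes for all windows together, made
for `MP_7ba156_nt.DilatesOfPolynomialValues`, and the covering theorem `Pool.Agent.Y961.JR.coverAbs` of
the starting library).
-/

namespace Pool.Agent.Results.MP_926cc3_nt.LinearFormsAndProduct

/-- the size of the largest known prime gaps below `Z` -/
noncomputable def f (Z : ℝ) : ℝ :=
  Real.log Z * (Real.log (Real.log Z)) ^ 2 * Real.log (Real.log (Real.log (Real.log Z))) /
    (Real.log (Real.log (Real.log Z))) ^ 2

/-- no prime is at distance at most `d` from `x` -/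
def PrimeFreeAround (x d : ℝ) : Prop := ∀ q : ℕ, q.Prime → d < |(q : ℝ) - x|

theorem result (r : ℕ) (ε : ℝ) (hε : 0 < ε) :
    ∃ κ : ℝ, 0 < κ ∧ ∀ α β : Fin r → ℕ, (∀ j, α j ≠ 0 ∨ β j ≠ 0) →
      (∀ j l, j ≠ l → α j * β l ≠ α l * β j) →
      ∃ T₀ : ℝ, ∀ T : ℝ, T₀ ≤ T → ∀ (a b : ℤ) (L M : ℕ),
        T ^ ε ≤ a → T ^ ε ≤ b → T ^ ε ≤ L → T ^ ε ≤ M →
        ∃ x y : ℤ, a ≤ x ∧ x < a + L ∧ b ≤ y ∧ y < b + M ∧
          PrimeFreeAround ((x * y : ℤ) : ℝ) (κ * f T) ∧
          ∀ j, PrimeFreeAround ((α j * x + β j * y : ℤ) : ℝ) (κ * f T) := by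
  obtain ⟨κ, hκ, h⟩ := Pool.Agent.V1179.MH.GH.lp_config r (min ε 1)
    (lt_min hε one_pos) (min_le_right _ _)
  refine ⟨κ, hκ, fun α β hne hprop => ?_⟩
  obtain ⟨T₀, h⟩ := h α β hne hprop
  refine ⟨max T₀ 1, fun T hTT a b L M ha hb hL hM => ?_⟩
  have hT1 : 1 ≤ T := (le_max_right _ _).trans hTT
  have hmono : T ^ (min ε 1) ≤ T ^ ε := Real.rpow_le_rpow_of_exponent_le hT1 (min_le_left _ _)
  obtain ⟨z, hz, hz2⟩ := h T ((le_max_left _ _).trans hTT) ![a, b] ![L, M]
    (by
      intro j
      fin_cases j
      · simpa using hmono.trans ha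
      · simpa using hmono.trans hb) (by
      intro j
      fin_cases j
      · simpa using hmono.trans hL
      · simpa using hmono.trans hM)
  have h0 := hz 0
  have h1 := hz 1
  simp only [Matrix.cons_val_zero, Matrix.cons_val_one] at h0 h1
  refine ⟨z 0, z 1, h0.1, h0.2, h1.1, h1.2, ?_, ?_⟩
  · intro q hq
    have h2 := hz2 0 q hq
    unfold Pool.Agent.V1179.MH.GH.lp at h2
    simp only [Fin.cons_zero] at h2
    exact h2
  · intro j q hq
    have h2 := hz2 j.succ q hq
    unfold Pool.Agent.V1179.MH.GH.lp at h2
    simp only [Fin.cons_succ] at h2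
    exact h2

end Pool.Agent.Results.MP_926cc3_nt.LinearFormsAndProduct
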