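import Pool.Agent.V1179.MH.GH3

set_option autoImplicit false

/-!
# Multiplicative configurations of integers in the middle of record prime gaps

Write `f(Z) = log Z (log₂ Z)² log₄ Z / (log₃ Z)²` (the size of the longest prime gaps below `Z` that are
known, from the starting library).

Let `α_1, …, α_r ∈ ℕ^n` be distinct exponent vectors of degree at least 2 for which there is an integer
vector `β` with `⟨α_i, β⟩ = 1` for all `i`.  Examples are

* geometric progressions `a u^(k-1), a u^(k-2) v, …, a v^(k-1)` (`β = (1, 0, 0)`);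
* multiplication tables `x_i y_j` (`i ≤ k`, `j ≤ l`; `β = 1` at the `x_i`, `0` at the `y_j`), tables
  `x_i y_j z_k`, …;
* two monomials `x^a y^b`, `x^c y^d` with `a d - b c = ±1`.

There is `κ > 0`, depending only on `n`, `r`, `ε` and a bound for the exponents, such that for all large
`T` every box in `ℤ^n` with sides `≥ T ^ ε` and coordinates `≥ T ^ ε` contains a point `z` such that no
prime lies within `κ f(T)` of any of the `r` products `∏ j, z_j ^ (α_i j)`.

In particular the long runs of composite numbers, the first occurrences of which are counted by `p(g)`,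
occur (at the record scale `g = κ f(T)`) simultaneously around all entries of a multiplication table
with factors from arbitrary intervals `[a_j, a_j + T ^ ε)`.

Proof: a new form of the criterion for families of polynomial values (`critH`), in which exceptional
classes are allowed: the products themselves are composite and need not be covered, and modulo a prime
`p` the values `≠ 0` are uniform and almost pairwise independent (orbits of the torus).  The criterion
uses the covering theorem `Pool.Agent.Y961.JR.coverAbs` of the starting library.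
-/

namespace Pool.Agent.Results.MP_926cc3_nt.MultiplicativeConfigurations

/-- the size of the largest known prime gaps below `Z` -/
noncomputable def f (Z : ℝ) : ℝ :=
  Real.log Z * (Real.log (Real.log Z)) ^ 2 * Real.log (Real.log (Real.log (Real.log Z))) /
    (Real.log (Real.log (Real.log Z))) ^ 2

/-- no prime is at distance at most `d` from `x` -/
def PrimeFreeAround (x d : ℝ) : Prop := ∀ q : ℕ, q.Prime → d < |(q : ℝ) - x|

/-- the product of the powers `z_j ^ (α j)` -/
def monomial {n : ℕ} (α : Fin n → ℕ) (z : Fin n → ℤ) : ℤ := ∏ j, z j ^ α j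

theorem result (n r D : ℕ) (hn : 1 ≤ n) (hr : 1 ≤ r) (ε : ℝ) (hε : 0 < ε) :
    ∃ κ : ℝ, 0 < κ ∧ ∃ T₀ : ℝ, ∀ T : ℝ, T₀ ≤ T → ∀ (α : Fin r → Fin n → ℕ) (β : Fin n → ℤ),
      Function.Injective α → (∀ i j, α i j ≤ D) → (∀ i, 2 ≤ ∑ j, α i j) →
      (∀ i, ∑ j, (α i j : ℤ) * β j = 1) →
      ∀ (a : Fin n → ℤ) (L : Fin n → ℕ), (∀ j, T ^ ε ≤ a j) → (∀ j, T ^ ε ≤ L j) →
      ∃ z : Fin n → ℤ, (∀ j, a j ≤ z j ∧ z j < a j + L j) ∧
        ∀ i, PrimeFreeAround (monomial (α i) z) (κ * f T) := by
  obtain ⟨κ, hκ, T₀, h⟩ := Pool.Agent.V1179.MH.GH.mult_config n r D hn hr (min ε 1)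
    (lt_min hε one_pos) (min_le_right _ _)
  refine ⟨κ, hκ, max T₀ 1, fun T hTT α β hinj hD h2 hβ a L ha hL => ?_⟩
  have hT1 : 1 ≤ T := (le_max_right _ _).trans hTT
  have hmono : T ^ (min ε 1) ≤ T ^ ε := Real.rpow_le_rpow_of_exponent_le hT1 (min_le_left _ _)
  exact h T ((le_max_left _ _).trans hTT) α β hinj hD h2 hβ a L (fun j => hmono.trans (ha j))
    (fun j => hmono.trans (hL j))

end Pool.Agent.Results.MP_926cc3_nt.MultiplicativeConfigurations
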